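import Mathlib
import Pool.Agent.T2H62.MP.D

set_option autoImplicit false

/-! # Goldbach representations by sieved random primes: the law of Hardy and Littlewood for every even number

Random primes: every integer `n` without a prime factor `p ≤ A log n` is chosen with probability
`∏_{p ≤ A log n} (1 - 1/p)⁻¹ / log n` (at most `1`), the other integers are not chosen, and the choices are independent
(`A = 1`: Granville's modification of Cramer's model). Almost surely, for every `ε > 0`, the number of the representations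
`2 n = q + p` of type `(0, 0)` with random primes `q < p ≤ n + H` is `(1 + o(1)) 𝔖(2n) H / (log n) ^ 2`, uniformly for
`n ^ ε ≤ H < n`, for ALL `n`, where `𝔖(2n)` is the constant of Hardy and Littlewood. In particular every large even number
`2 n` is the sum of two different random primes at distance at most `n ^ ε` from `n`. -/

namespace Pool.Agent.Results.MP_e3f158_nt.GoldbachLaw

open Finset Filter Topology MeasureTheory ProbabilityTheory

open scoped Classical in
/-- the probability that `n` is a random prime -/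
noncomputable def prob (A : ℝ) (n : ℕ) : ℝ :=
  if ∀ p : ℕ, p.Prime → (p : ℝ) ≤ A * Real.log n → ¬ p ∣ n then
    min 1 ((∏ p ∈ (Icc 1 ⌊A * Real.log n⌋₊).filter Nat.Prime, (1 - (p : ℝ)⁻¹)⁻¹) / Real.log n) else 0

/-- the events `S n` (`n` is a random prime) are independent with the probabilities `prob A n` -/
def Model (A : ℝ) {Ω : Type*} [MeasurableSpace Ω] (μ : Measure Ω) (S : ℕ → Set Ω) : Prop :=
  IsProbabilityMeasure μ ∧ (∀ n, MeasurableSet (S n)) ∧ iIndepSet S μ ∧
    ∀ n, μ (S n) = ENNReal.ofReal (prob A n)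

open scoped Classical in
/-- the number of the pairs `q < p` of positive elements of `R` with `q + p = 2 n` and `p ≤ n + H` -/
noncomputable def reps (R : Set ℕ) (n H : ℕ) : ℕ :=
  (((Icc 1 (2 * n)) ×ˢ (Icc 1 (2 * n))).filter (fun x : ℕ × ℕ => x.1 ∈ R ∧ x.2 ∈ R ∧ x.1 < x.2 ∧ x.1 + x.2 = 2 * n ∧
    x.2 ≤ n + H)).card

/-- the product over the primes `p ≤ z` of `(1 - 2/p) / (1 - 1/p) ^ 2`, with `2` in place of the factor for `p = 2` -/
noncomputable def twinProduct (z : ℕ) : ℝ :=
  ∏ p ∈ (Icc 1 z).filter Nat.Prime, (1 - (if p = 2 then (1 : ℝ) else 2) / p) * ((1 - (p : ℝ)⁻¹)⁻¹) ^ 2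

/-- the product of `(p - 1) / (p - 2)` over the odd primes `p` dividing `n` -/
noncomputable def factor (n : ℕ) : ℝ := ∏ p ∈ n.primeFactors.erase 2, ((p : ℝ) - 1) / (p - 2)

theorem result (A : ℝ) (hA : 0 < A) :
    -- the model exists
    (∃ (μ : Measure (ℕ → Bool)) (S : ℕ → Set (ℕ → Bool)), Model A μ S) ∧
    ∃ s : ℝ, 0 < s ∧ Tendsto twinProduct atTop (𝓝 s) ∧
    ∀ (Ω : Type) [MeasurableSpace Ω] (μ : Measure Ω) (S : ℕ → Set Ω), Model A μ S →
      ∀ᵐ ω ∂μ, ∀ R : Set ℕ, R = {n | ω ∈ S n} →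
        -- the number of representations of every even number, in short intervals
        (∀ ε : ℝ, 0 < ε → ∀ δ : ℝ, 0 < δ → ∀ᶠ n : ℕ in atTop, ∀ H : ℕ, (n : ℝ) ^ ε ≤ H → H < n →
          |(reps R n H : ℝ) - s * factor n * (H / Real.log n ^ 2)| ≤ δ * (s * factor n * (H / Real.log n ^ 2))) ∧
        -- the number of all representations
        (∀ δ : ℝ, 0 < δ → ∀ᶠ n : ℕ in atTop,
          |(reps R n n : ℝ) - s * factor n * (n / Real.log n ^ 2)| ≤ δ * (s * factor n * (n / Real.log n ^ 2))) ∧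
        -- every large even number has a representation
        ∀ ε : ℝ, 0 < ε → ∀ᶠ n : ℕ in atTop, ∃ q p : ℕ, q ∈ R ∧ p ∈ R ∧ q < p ∧ q + p = 2 * n ∧
          (p : ℝ) ≤ n + (n : ℝ) ^ ε := by
  classical
  have hprob : ∀ n, prob A n = Pool.Agent.T2H53.GW.pr A n := fun n => rfl
  refine ⟨?_, ?_⟩
  · obtain ⟨μ, S, h1, h2, h3, h4⟩ := Pool.Agent.T2H53.GW.exists_model (prob A)
      (fun n => by rw [hprob]; exact Pool.Agent.T2H53.GW.pr_nonneg A n)
      (fun n => by rw [hprob]; exact Pool.Agent.T2H53.GW.pr_le_one A n)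
    exact ⟨μ, S, h1, h2, h3, h4⟩
  obtain ⟨s, hs, hSG⟩ := Pool.Agent.T2H62.MT.SG_lim
  refine ⟨s, hs, hSG.congr fun z => ?_, ?_⟩
  · rw [Pool.Agent.T2H62.MT.SG_SS]
    unfold Pool.Agent.T2H62.MD.SS twinProduct
    have hc2 : ({1, 3} : Finset ℕ).card = 2 := by decide
    rw [hc2]
    refine prod_congr rfl fun p hp => ?_
    have hpp := (mem_filter.1 hp).2
    have h1 := Pool.Agent.T2H62.ME.nu_pair 1 2 p
    have h2 : ({1, 1 + 2} : Finset ℕ) = {1, 3} := rfl
    rw [h2] at h1
    rw [h1]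
    by_cases h3 : p = 2
    · rw [if_pos h3, if_pos (by rw [h3])]
    · rw [if_neg h3, if_neg (fun h4 => h3 ((Nat.prime_dvd_prime_iff_eq hpp Nat.prime_two).1 h4))]
  · rintro Ω _ μ S ⟨hμ, hm, hi, hp⟩
    have hp' : ∀ n, μ.real (S n) = Pool.Agent.T2H53.GW.pr A n := fun n => by
      rw [measureReal_def, hp n, ENNReal.toReal_ofReal (by rw [hprob]; exact Pool.Agent.T2H53.GW.pr_nonneg A n), hprob]
    filter_upwards [Pool.Agent.T2H62.MP.gold hA hm hi hp' s hs hSG] with ω hω R hR
    have hmem : ∀ n, n ∈ R ↔ ω ∈ S n := fun n => by rw [hR]; rfl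
    have hfac : ∀ n : ℕ, 1 ≤ n → Pool.Agent.T2H62.MK.FP (2 * n) = factor n := by
      intro m hm1
      unfold Pool.Agent.T2H62.MK.FP factor
      refine prod_congr ?_ fun _ _ => rfl
      ext p
      rw [mem_erase, mem_erase, Nat.mem_primeFactors, Nat.mem_primeFactors]
      constructor
      · rintro ⟨g1, g2, g3, -⟩
        refine ⟨g1, g2, ?_, by omega⟩
        rcases (Nat.Prime.dvd_mul g2).1 g3 with g4 | g4
        · exact absurd ((Nat.prime_dvd_prime_iff_eq g2 Nat.prime_two).1 g4) g1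
        · exact g4
      · rintro ⟨g1, g2, g3, -⟩
        exact ⟨g1, g2, Dvd.dvd.mul_left g3 2, by omega⟩
    have hcnt : ∀ n H : ℕ, H < n → Pool.Agent.T2H62.MD.cnt (Ioc 0 H) (Pool.Agent.T2H62.MP.Ev S n) ω = (reps R n H : ℝ) := by
      intro n H hH
      rw [Pool.Agent.T2H62.MD.cnt_eq]
      unfold reps
      congr 1
      refine card_bij (fun h _ => (n - h, n + h)) ?_ ?_ ?_
      · intro h hh
        rw [mem_filter, mem_Ioc] at hh
        obtain ⟨⟨h1, h2⟩, h3⟩ := hh
        unfold Pool.Agent.T2H62.MP.Ev at h3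
        rw [if_pos ⟨h1, by omega⟩] at h3
        rw [mem_filter, mem_product, mem_Icc, mem_Icc]
        exact ⟨⟨⟨by dsimp only; omega, by dsimp only; omega⟩, by dsimp only; omega, by dsimp only; omega⟩,
          (hmem _).2 h3.1, (hmem _).2 h3.2, by dsimp only; omega, by dsimp only; omega, by dsimp only; omega⟩
      · intro a ha b hb hab
        rw [Prod.mk.injEq] at hab
        omega
      · rintro ⟨q, p⟩ hx
        rw [mem_filter, mem_product, mem_Icc, mem_Icc] at hx
        obtain ⟨⟨⟨h1, h2⟩, h3, h4⟩, h5, h6, h7, h8, h9⟩ := hx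
        dsimp only at h1 h2 h3 h4 h5 h6 h7 h8 h9
        refine ⟨p - n, ?_, ?_⟩
        · rw [mem_filter, mem_Ioc]
          refine ⟨by omega, ?_⟩
          unfold Pool.Agent.T2H62.MP.Ev
          rw [if_pos (by omega)]
          have e1 : n - (p - n) = q := by omega
          have e2 : n + (p - n) = p := by omega
          rw [e1, e2]
          exact ⟨(hmem _).1 h5, (hmem _).1 h6⟩
        · rw [Prod.mk.injEq]
          omega
    have ha : ∀ ε : ℝ, 0 < ε → ∀ δ : ℝ, 0 < δ → ∀ᶠ n : ℕ in atTop, ∀ H : ℕ, (n : ℝ) ^ ε ≤ H → H < n →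
          |(reps R n H : ℝ) - s * factor n * (H / Real.log n ^ 2)| ≤ δ * (s * factor n * (H / Real.log n ^ 2)) := by
      intro ε hε δ hδ
      filter_upwards [hω ε hε δ hδ, eventually_ge_atTop 1] with n h1 h2 H hH1 hH2
      have h3 := h1 H hH1 hH2
      rw [hcnt n H hH2, hfac n h2] at h3
      exact h3
    refine ⟨ha, ?_, ?_⟩
    · intro δ hδ
      have htend : Tendsto (fun n : ℕ => (n : ℝ)) atTop atTop := tendsto_natCast_atTop_atTop
      filter_upwards [ha (1 / 2) (by norm_num) (δ / 4) (by positivity), ha (1 / 2) (by norm_num) (1 / 2) (by norm_num),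
        htend.eventually_ge_atTop (4 + 4 / δ),
        Pool.Agent.T2H62.MD.rpow_big 2 (1 / 2) (by norm_num)] with n h1 h1' h2 h2'
      have hn4 : (4 : ℝ) ≤ n := by
        have : 0 < 4 / δ := by positivity
        linarith
      have hnδ : 4 ≤ δ * n := by
        have h3 : 4 / δ ≤ n := by linarith
        rw [div_le_iff₀ hδ] at h3
        linarith
      have hn : 4 ≤ n := by exact_mod_cast hn4
      have hcast : ((n - 1 : ℕ) : ℝ) = n - 1 := by
        rw [Nat.cast_sub (by omega)]
        norm_num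
      have hH1 : (n : ℝ) ^ (1 / 2 : ℝ) ≤ ((n - 1 : ℕ) : ℝ) := by
        rw [hcast]
        have h3 : (n : ℝ) ^ (1 / 2 : ℝ) * (n : ℝ) ^ (1 / 2 : ℝ) = n := by
          rw [← Real.rpow_add (by linarith)]
          norm_num
        nlinarith
      have h3 := h1 (n - 1) hH1 (by omega)
      -- the representations with `q ≥ 1` are counted by `reps R n (n - 1)`
      have h4 : reps R n n = reps R n (n - 1) := by
        unfold reps
        congr 1
        apply filter_congr
        rintro ⟨q, p⟩ hx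
        rw [mem_product, mem_Icc, mem_Icc] at hx
        dsimp only at hx ⊢
        constructor
        · rintro ⟨k1, k2, k3, k4, k5⟩
          exact ⟨k1, k2, k3, k4, by omega⟩
        · rintro ⟨k1, k2, k3, k4, k5⟩
          exact ⟨k1, k2, k3, k4, by omega⟩
      have hL0 : 0 < Real.log (n : ℝ) := Real.log_pos (by linarith)
      have hf0 : 0 < s * factor n := by
        rw [← hfac n (by omega)]
        have := Pool.Agent.T2H62.MK.FP_ge (2 * n)
        positivity
      rw [h4]
      obtain ⟨c, hc⟩ : ∃ c, c = s * factor n / Real.log n ^ 2 := ⟨_, rfl⟩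
      have hc0 : 0 < c := by rw [hc]; positivity
      have e1 : ∀ x : ℝ, s * factor n * (x / Real.log n ^ 2) = c * x := fun x => by rw [hc]; ring
      rw [e1, hcast] at h3
      rw [e1]
      have h5 := abs_le.1 h3
      rw [abs_le]
      have h6 : c * (δ * n) ≥ c * 4 := mul_le_mul_of_nonneg_left hnδ hc0.le
      have h7 : 0 ≤ δ * (c * n) := by positivity
      have h8 : 0 ≤ δ * c := by positivity
      constructor
      · nlinarith [h5.1]
      · nlinarith [h5.2]
    · intro ε hε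
      obtain ⟨e, he⟩ : ∃ e : ℝ, e = min (ε / 2) (1 / 2) := ⟨_, rfl⟩
      have he0 : 0 < e := by rw [he]; exact lt_min (by positivity) (by norm_num)
      have he1 : e ≤ ε / 2 := by rw [he]; exact min_le_left _ _
      have he2 : e ≤ 1 / 2 := by rw [he]; exact min_le_right _ _
      filter_upwards [ha e he0 (1 / 2) (by norm_num), eventually_ge_atTop 9,
        Pool.Agent.T2H62.MD.rpow_big 2 (ε / 2) (by positivity)] with n h1 h2 h2'
      have hn9 : (9 : ℝ) ≤ n := by exact_mod_cast h2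
      have hn1 : (1 : ℝ) ≤ n := by linarith
      have hpe : 1 ≤ (n : ℝ) ^ e := Real.one_le_rpow hn1 he0.le
      have hceil : (⌈(n : ℝ) ^ e⌉₊ : ℝ) < (n : ℝ) ^ e + 1 := Nat.ceil_lt_add_one (by linarith)
      have h3 : (n : ℝ) ^ e ≤ (n : ℝ) ^ (1 / 2 : ℝ) := Real.rpow_le_rpow_of_exponent_le hn1 he2
      have h4 : (n : ℝ) ^ (1 / 2 : ℝ) * (n : ℝ) ^ (1 / 2 : ℝ) = n := by
        rw [← Real.rpow_add (by linarith)]
        norm_num
      have h5 : ⌈(n : ℝ) ^ e⌉₊ < n := by
        have h6 : (⌈(n : ℝ) ^ e⌉₊ : ℝ) < n := by nlinarith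
        exact_mod_cast h6
      have h6 := h1 ⌈(n : ℝ) ^ e⌉₊ (Nat.le_ceil _) h5
      have hL0 : 0 < Real.log (n : ℝ) := Real.log_pos (by linarith)
      have hf0 : 0 < s * factor n := by
        rw [← hfac n (by omega)]
        have := Pool.Agent.T2H62.MK.FP_ge (2 * n)
        positivity
      have hc0 : (0 : ℝ) < ⌈(n : ℝ) ^ e⌉₊ := lt_of_lt_of_le (by linarith) (Nat.le_ceil ((n : ℝ) ^ e))
      have h7 : 0 < s * factor n * ((⌈(n : ℝ) ^ e⌉₊ : ℝ) / Real.log n ^ 2) := by positivity
      have h8 : 0 < (reps R n ⌈(n : ℝ) ^ e⌉₊ : ℝ) := by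
        have := (abs_le.1 h6).1
        linarith
      have h9 : 0 < reps R n ⌈(n : ℝ) ^ e⌉₊ := by exact_mod_cast h8
      unfold reps at h9
      rw [card_pos] at h9
      obtain ⟨⟨q, p⟩, hx⟩ := h9
      rw [mem_filter] at hx
      obtain ⟨-, g1, g2, g3, g4, g5⟩ := hx
      refine ⟨q, p, g1, g2, g3, g4, ?_⟩
      have g6 : (p : ℝ) ≤ n + (⌈(n : ℝ) ^ e⌉₊ : ℝ) := by exact_mod_cast g5
      have g7 : (n : ℝ) ^ e ≤ (n : ℝ) ^ (ε / 2) := Real.rpow_le_rpow_of_exponent_le hn1 he1
      have g8 : (n : ℝ) ^ (ε / 2) * (n : ℝ) ^ (ε / 2) = (n : ℝ) ^ ε := by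
        rw [← Real.rpow_add (by linarith)]
        congr 1
        ring
      nlinarith

end Pool.Agent.Results.MP_e3f158_nt.GoldbachLaw
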