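import Mathlib
import Pool.Agent.T2H64.IP.Fin2

set_option autoImplicit false

/-! # MP_e3f158_nt: the assertion of the question for random primes, all the types at once

Random primes: every integer `n` without a prime factor `p ≤ A log n` is chosen with probability
`∏_{p ≤ A log n} (1 - 1/p)⁻¹ / log n` (at most `1`), the other integers are not chosen, and the choices are
independent (`A = 1`: Granville's modification of Cramer's model). Almost surely the assertion of the question
holds for the set `R` of the random primes with at most finitely many exceptions: there are only finitely many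
triples `(a, b, n)`, `n ≥ f₂ (a, b)`, for which `2 n` has no representation of type `(a, b)` by iterated random
primes. Moreover for every `ε > 0` and all large `n` there are at least `n ^ (1 - ε)` representations of `2 n`
of type `(a, b)`, for ALL the types with `f₂ (a, b) ≤ n` (their number tends to infinity with `n`).

Given the random primes outside of `(n - H, n + H)`, the condition on the index of `n - t` and of `n + t` is a
condition on two random walks; a local limit theorem gives a hit in a short block of `t` with probability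
`n ^ (-ε)`, whatever happened in the earlier blocks. -/

namespace Pool.Agent.Results.MP_e3f158_nt.RandomPrimesAllTypes

open Finset Filter MeasureTheory ProbabilityTheory

open scoped Classical in
/-- the probability that `n` is a random prime -/
noncomputable def prob (A : ℝ) (n : ℕ) : ℝ :=
  if ∀ p : ℕ, p.Prime → (p : ℝ) ≤ A * Real.log n → ¬ p ∣ n then
    min 1 ((∏ p ∈ (Icc 1 ⌊A * Real.log n⌋₊).filter Nat.Prime, (1 - (p : ℝ)⁻¹)⁻¹) / Real.log n) else 0

/-- the events `S n` (`n` is a random prime) are independent with the probabilities `prob A n` -/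
def Model (A : ℝ) {Ω : Type*} [MeasurableSpace Ω] (μ : Measure Ω) (S : ℕ → Set Ω) : Prop :=
  IsProbabilityMeasure μ ∧ (∀ n, MeasurableSet (S n)) ∧ iIndepSet S μ ∧
    ∀ n, μ (S n) = ENNReal.ofReal (prob A n)

/-- the `x`-th element of `R`, for `x ≥ 1` -/
noncomputable def pr (R : Set ℕ) (x : ℕ) : ℕ := Nat.nth (fun j => j ∈ R) (x - 1)

/-- the `x`-th `i`-prime of `R`, for `x ≥ 1`: the `(i + 1)`-fold iterate of `pr R` -/
noncomputable def iPrime (R : Set ℕ) (i x : ℕ) : ℕ := (pr R)^[i + 1] x

/-- the pair of indices `(x, y)` is a representation of `m` of type `(a, b)` -/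
def IsRep (R : Set ℕ) (a b m x y : ℕ) : Prop :=
  1 ≤ x ∧ 1 ≤ y ∧ iPrime R a x + iPrime R b y = m ∧ iPrime R a x ≠ iPrime R b y

/-- the function `f₂` of the question -/
noncomputable def f₂ (a b : ℕ) : ℝ :=
  if a = b then
    (if a = 0 then (2 : ℝ) ^ (((a : ℝ) + 1) * (b + 1) * (a + b + 2))
      else (2 : ℝ) ^ (((a : ℝ) + 1) ^ 2 * (2 * a + 3) / a - 2 * a))
  else (2 : ℝ) ^ (((a : ℝ) + 1) * (b + 1) * (a + b + 2) - (a + b - 2))

theorem result (A : ℝ) (hA : 0 < A) :
    -- the model exists
    (∃ (μ : Measure (ℕ → Bool)) (S : ℕ → Set (ℕ → Bool)), Model A μ S) ∧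
    ∀ (Ω : Type) [MeasurableSpace Ω] (μ : Measure Ω) (S : ℕ → Set Ω), Model A μ S →
      ∀ᵐ ω ∂μ, {n | ω ∈ S n}.Infinite ∧
        -- only finitely many exceptions, over all the types
        {q : ℕ × ℕ × ℕ | f₂ q.1 q.2.1 ≤ q.2.2 ∧
          ¬ ∃ x y : ℕ, IsRep {n | ω ∈ S n} q.1 q.2.1 (2 * q.2.2) x y}.Finite ∧
        -- the number of the representations
        ∀ ε : ℝ, 0 < ε → ∀ᶠ n : ℕ in atTop, ∀ a b : ℕ, f₂ a b ≤ n →
          ∃ F : Finset (ℕ × ℕ), (n : ℝ) ^ (1 - ε) ≤ F.card ∧
            ∀ q ∈ F, IsRep {n | ω ∈ S n} a b (2 * n) q.1 q.2 := by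
  classical
  have hprob : ∀ n, prob A n = Pool.Agent.T2H53.GW.pr A n := fun n => rfl
  refine ⟨?_, ?_⟩
  · obtain ⟨μ, S, h1, h2, h3, h4⟩ := Pool.Agent.T2H53.GW.exists_model (prob A)
      (fun n => by rw [hprob]; exact Pool.Agent.T2H53.GW.pr_nonneg A n)
      (fun n => by rw [hprob]; exact Pool.Agent.T2H53.GW.pr_le_one A n)
    exact ⟨μ, S, h1, h2, h3, h4⟩
  · rintro Ω _ μ S ⟨hμ, hm, hi, hp⟩
    have hp' : ∀ n, μ.real (S n) = Pool.Agent.T2H53.GW.pr A n := fun n => by
      rw [measureReal_def, hp n, ENNReal.toReal_ofReal (by rw [hprob]; exact Pool.Agent.T2H53.GW.pr_nonneg A n), hprob]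
    have hp0 : ∀ n, μ.real (S n) = 0 → μ (S n) = 0 := fun n h => by
      rw [measureReal_def, ENNReal.toReal_eq_zero_iff] at h
      rcases h with h | h
      · exact h
      · exact absurd h (measure_ne_top μ _)
    filter_upwards [Pool.Agent.T2H64.IP.main A hA hm hi hp' hp0] with ω hω
    obtain ⟨h1, h2⟩ := hω
    refine ⟨h1, ?_, h2⟩
    obtain ⟨N, hN⟩ := Filter.eventually_atTop.mp (h2 (1 / 2) (by norm_num))
    apply Set.Finite.subset (Set.Finite.prod (Set.finite_Iic (N + 1)) (Set.Finite.prod (Set.finite_Iic (N + 1))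
      (Set.finite_Iic (N + 1))))
    rintro ⟨a, b, n⟩ ⟨h3, h4⟩
    simp only at h3 h4
    have hnN : n < max N 1 := by
      by_contra hcon
      push Not at hcon
      obtain ⟨F, hF1, hF2⟩ := hN n ((le_max_left _ _).trans hcon) a b h3
      apply h4
      have hn1 : (1 : ℝ) ≤ n := by exact_mod_cast (le_max_right _ _).trans hcon
      have hF0 : 0 < F.card := by
        have h5 : (0 : ℝ) < (n : ℝ) ^ (1 - 1 / 2 : ℝ) := by positivity
        exact_mod_cast lt_of_lt_of_le h5 hF1
      obtain ⟨q, hq⟩ := card_pos.1 hF0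
      exact ⟨q.1, q.2, hF2 q hq⟩
    have hAA : Pool.Agent.T2H64.IP.AA n ≤ n := by
      unfold Pool.Agent.T2H64.IP.AA
      exact (Nat.sqrt_le_self _).trans (Nat.log_le_self 2 n)
    obtain ⟨h5, h6⟩ := Pool.Agent.T2H64.IP.orders (a := a) (b := b) (n := n) h3
    have hmax : max N 1 ≤ N + 1 := by omega
    refine ⟨?_, ?_, ?_⟩
    · show a ≤ N + 1
      omega
    · show b ≤ N + 1
      omega
    · show n ≤ N + 1
      omega

end Pool.Agent.Results.MP_e3f158_nt.RandomPrimesAllTypes
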