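import Pool.Agent.T2H22.AR.Syn
import Pool.Agent.T2H22.AA.UpW

/-!
# Representations of type (0,0) with selected indices, for almost all even integers

A rule selects from every run `p (i + 1), …, p (i + K)` of `K` consecutive primes at least `k` of them. For almost all `n`
there are many runs of `r` consecutive primes `p (i' + 1), …, p (i' + r)`, of bounded diameter, such that ALL their indices
are second indices of representations of type `(0, 0)` of `2 n`, with selected first indices. In particular both indices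
can be restricted to arbitrary sets of indices which meet all intervals of some fixed length.
-/

set_option autoImplicit false

namespace Pool.Agent.Results.MP_e3f158_nt.SelectedIndices

open Finset

/-- the `x`-th prime, `p 1 = 2` -/
noncomputable def p (x : ℕ) : ℕ := Nat.nth Nat.Prime (x - 1)

/-- the `x`-th `i`-prime: the `(i + 1)`-fold iterate of `p` at `x` -/
noncomputable def iprime (i x : ℕ) : ℕ := p^[i + 1] x

/-- `(x, y)` is a representation of type `(a, b)` of `N` -/
def IsRep (a b N x y : ℕ) : Prop :=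
  1 ≤ x ∧ 1 ≤ y ∧ iprime a x + iprime b y = N ∧ iprime a x ≠ iprime b y

/-- the primes `p (i' + 1), …, p (i' + r)` have diameter at most `C`, and all the `i' + j'`, `1 ≤ j' ≤ r`, are second indices
of representations of type `(0, 0)` of `2 n` with first indices `i + j`, `j ∈ σ i`, for one `i` such that the run
`p (i + 1), …, p (i + K)` has diameter at most `C` -/
def GoodRun (σ : ℕ → Finset ℕ) (K r C n i' : ℕ) : Prop :=
  p (i' + r) ≤ p (i' + 1) + C ∧ ∃ i : ℕ, p (i + K) ≤ p (i + 1) + C ∧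
    ∀ j' : ℕ, 1 ≤ j' → j' ≤ r → ∃ j ∈ σ i, IsRep 0 0 (2 * n) (i + j) (i' + j')

open Classical in
/-- the number of the good runs -/
noncomputable def goodRuns (σ : ℕ → Finset ℕ) (K r C n : ℕ) : ℕ :=
  ((range (2 * n)).filter (fun i' => GoodRun σ K r C n i')).card

open Classical in
/-- the number of the `y ∈ [1, n]` such that for at least `r` of the integers `q ∈ [n + y, n + y + C]` there is a
representation `(u, v)` of type `(0, 0)` of `2 n` with `u ∈ 𝒳`, `v ∈ 𝒴` and `p v = q` -/
noncomputable def windows (𝒳 𝒴 : Set ℕ) (r C n : ℕ) : ℕ :=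
  ((Icc 1 n).filter (fun y => r ≤ ((Icc (n + y) (n + y + C)).filter (fun q =>
    ∃ u ∈ 𝒳, ∃ v ∈ 𝒴, IsRep 0 0 (2 * n) u v ∧ p v = q)).card)).card

open Classical in
/-- **Representations with selected indices, for almost all even integers.** (1) For every `r ≥ 1` there is `k` such that
for every `K ≥ k` there are `C` and `D` such that for every rule `σ` which selects at least `k` of the `K` indices
`i + 1, …, i + K`, for each `i`, the following holds for almost all `n`, uniformly in `σ`. At least `n / (log n) ^ D` runs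
`p (i' + 1), …, p (i' + r)` of consecutive primes have diameter at most `C`, and all the indices of the run are second
indices of representations of type `(0, 0)` of `2 n` with selected first indices (from one run of `K` consecutive primes of
diameter at most `C`). (2) For all `r, m ≥ 1` there are `C` and `D` such that for all sets `𝒳`, `𝒴` of indices which meet
every block of `m` consecutive indices the following holds for almost all `n`, uniformly in `𝒳` and `𝒴`. For at least
`n / (log n) ^ D` integers `y ∈ [1, n]` at least `r` of the primes `p v ∈ [n + y, n + y + C]`, `v ∈ 𝒴`, belong to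
representations `(u, v)` of type `(0, 0)` of `2 n` with `u ∈ 𝒳`. -/
theorem result (r : ℕ) (hr : 1 ≤ r) :
    (∃ k : ℕ, ∀ K : ℕ, k ≤ K → ∃ C D : ℕ, ∀ ε : ℝ, 0 < ε → ∃ X₀ : ℕ,
      ∀ σ : ℕ → Finset ℕ, (∀ i, σ i ⊆ Icc 1 K ∧ k ≤ (σ i).card) → ∀ X : ℕ, X₀ ≤ X →
      (((Icc 1 X).filter (fun n : ℕ => (goodRuns σ K r C n : ℝ) < n / Real.log n ^ D)).card : ℝ) ≤ ε * X) ∧
    ∀ m : ℕ, 1 ≤ m → ∃ C D : ℕ, ∀ ε : ℝ, 0 < ε → ∃ X₀ : ℕ,
      ∀ 𝒳 𝒴 : Set ℕ, (∀ i : ℕ, ∃ x ∈ 𝒳, i < x ∧ x ≤ i + m) → (∀ i : ℕ, ∃ x ∈ 𝒴, i < x ∧ x ≤ i + m) →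
      ∀ X : ℕ, X₀ ≤ X →
      (((Icc 1 X).filter (fun n : ℕ => (windows 𝒳 𝒴 r C n : ℝ) < n / Real.log n ^ D)).card : ℝ) ≤ ε * X := by
  have hSec := Pool.Agent.T2H22.AA.secM Pool.Agent.T2H22.AA.upW
  constructor
  · obtain ⟨k, hk, hmain⟩ := Pool.Agent.T2H22.AR.main_RR hSec r hr
    refine ⟨k, fun K hK => ?_⟩
    obtain ⟨C, D, h⟩ := hmain K hK
    refine ⟨C, D, fun ε hε => ?_⟩
    obtain ⟨X₀, h0⟩ := h ε hε
    refine ⟨X₀, fun σ hσ X hX => le_trans ?_ (h0 σ hσ X hX)⟩
    apply Nat.cast_le.2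
    apply card_le_card
    intro n hn
    rw [mem_filter] at hn ⊢
    refine ⟨hn.1, lt_of_le_of_lt ?_ hn.2⟩
    apply Nat.cast_le.2
    unfold Pool.Agent.T2H22.AR.good2 goodRuns
    apply card_le_card
    intro i' hi
    rw [mem_filter] at hi ⊢
    refine ⟨hi.1, hi.2.1, ?_⟩
    obtain ⟨_, i, h2, h3⟩ := hi.2
    refine ⟨i, h2, fun j' h4 h5 => ?_⟩
    obtain ⟨j, hj, h6, h7⟩ := h3 j' h4 h5
    have hj1 := mem_Icc.1 ((hσ i).1 hj)
    exact ⟨j, hj, by omega, by omega, h7, h6.ne⟩
  · intro m hm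
    obtain ⟨C, D, h⟩ := Pool.Agent.T2H22.AR.main_SS hSec r m hr hm
    refine ⟨C, D, fun ε hε => ?_⟩
    obtain ⟨X₀, h0⟩ := h ε hε
    refine ⟨X₀, fun 𝒳 𝒴 h𝒳 h𝒴 X hX => le_trans ?_ (h0 𝒳 𝒴 h𝒳 h𝒴 X hX)⟩
    apply Nat.cast_le.2
    apply card_le_card
    intro n hn
    rw [mem_filter] at hn ⊢
    refine ⟨hn.1, lt_of_le_of_lt ?_ hn.2⟩
    apply Nat.cast_le.2
    unfold Pool.Agent.T2H22.AR.cl windows
    apply card_le_card
    intro y hy
    rw [mem_filter, mem_Icc] at hy
    rw [mem_filter, mem_Icc]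
    refine ⟨hy.1, hy.2.trans ?_⟩
    apply card_le_card_of_injOn (fun x => n + x)
    · intro x hx
      rw [mem_coe, mem_filter, mem_Icc] at hx
      rw [mem_coe, mem_filter, mem_Icc]
      obtain ⟨hx1, u, hu, v, hv, hu1, hv1, h1, h2⟩ := hx
      simp only
      refine ⟨⟨by omega, by omega⟩, u, hu, v, hv, ⟨hu1, hv1, ?_, ?_⟩, h2.symm⟩
      · show Pool.Agent.T2H22.AQ.pr u + Pool.Agent.T2H22.AQ.pr v = 2 * n
        omega
      · show Pool.Agent.T2H22.AQ.pr u ≠ Pool.Agent.T2H22.AQ.pr v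
        omega
    · intro x _ x' _ he
      simpa using he

end Pool.Agent.Results.MP_e3f158_nt.SelectedIndices
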