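import Pool.Agent.T2H64.SI4

/-!
# MP_e3f158_nt: all the types at once in short intervals

There are `δ, c > 0` such that for all large `x` and ALL `y` with `x ^ (1 - δ) ≤ y ≤ x`:

(1) for at least `c y / log log x` of the `n ∈ (x, x + y]` the number `2 n` has a representation of type
`(a, b)` for ALL the types with `a = 0` or `b = 0` and `f₂(a, b) ≤ n`;

(2) for at least `y exp (- √(log x) log log x)` of the `n ∈ (x, x + y]` the full assertion of the question
holds: `2 n` has a representation of type `(a, b)` for ALL the types with `f₂(a, b) ≤ n`.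

In particular every interval `(x, x + x ^ (1 - δ)]` with `x` large contains such `n`.

The iterated primes in short intervals are counted with Hoheisel's theorem, uniformly in the number of the
iterations: the `(a + 1)`-primes of `(X, X + Y]` correspond to the `a`-primes of `(π X, π (X + Y)]`, an
interval which is again not too short.
-/

set_option autoImplicit false

open Filter Topology

namespace Pool.Agent.Results.MP_e3f158_nt.ShortIntervals

/-- the `x`-th prime, for `x ≥ 1` -/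
noncomputable def pr (x : ℕ) : ℕ := Nat.nth Nat.Prime (x - 1)

/-- the `x`-th `i`-prime, for `x ≥ 1`: the `(i + 1)`-fold iterate of `pr` -/
noncomputable def iPrime (i x : ℕ) : ℕ := pr^[i + 1] x

/-- `m` has a representation of type `(a, b)` -/
def HasRep (a b m : ℕ) : Prop :=
  ∃ x y : ℕ, 1 ≤ x ∧ 1 ≤ y ∧ iPrime a x + iPrime b y = m ∧ iPrime a x ≠ iPrime b y

/-- the function `f₂` of the question -/
noncomputable def f₂ (a b : ℕ) : ℝ :=
  if a = b then
    (if a = 0 then (2 : ℝ) ^ (((a : ℝ) + 1) * (b + 1) * (a + b + 2))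
      else (2 : ℝ) ^ (((a : ℝ) + 1) ^ 2 * (2 * a + 3) / a - 2 * a))
  else (2 : ℝ) ^ (((a : ℝ) + 1) * (b + 1) * (a + b + 2) - (a + b - 2))

/-- **All types at once in short intervals.** -/
theorem result : ∃ δ c : ℝ, 0 < δ ∧ δ ≤ 1 / 2 ∧ 0 < c ∧ ∀ᶠ x : ℕ in atTop, ∀ y : ℕ,
    (x : ℝ) ^ (1 - δ) ≤ y → y ≤ x →
    c * (y / Real.log (Real.log x)) ≤ Set.ncard {n : ℕ | x < n ∧ n ≤ x + y ∧
      ∀ a b : ℕ, a = 0 ∨ b = 0 → f₂ a b ≤ n → HasRep a b (2 * n)} ∧
    (y : ℝ) * Real.exp (-(√(Real.log x) * Real.log (Real.log x))) ≤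
      Set.ncard {n : ℕ | x < n ∧ n ≤ x + y ∧ ∀ a b : ℕ, f₂ a b ≤ n → HasRep a b (2 * n)} := by
  obtain ⟨δ₁, c, hδ₁, hδ₁', hc, h₁⟩ := Pool.Agent.T2H64.SI.main2
  obtain ⟨δ₂, hδ₂, hδ₂', h₂⟩ := Pool.Agent.T2H64.SI.main3
  refine ⟨min δ₁ δ₂, c, lt_min hδ₁ hδ₂, (min_le_left _ _).trans hδ₁', hc, ?_⟩
  filter_upwards [h₁, h₂, eventually_ge_atTop 1] with x k₁ k₂ hx
  intro y hy hyx
  have hx1 : (1 : ℝ) ≤ x := by exact_mod_cast hx
  have e₁ : (x : ℝ) ^ (1 - δ₁) ≤ y :=
    (Real.rpow_le_rpow_of_exponent_le hx1 (by linarith [min_le_left δ₁ δ₂])).trans hy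
  have e₂ : (x : ℝ) ^ (1 - δ₂) ≤ y :=
    (Real.rpow_le_rpow_of_exponent_le hx1 (by linarith [min_le_right δ₁ δ₂])).trans hy
  refine ⟨k₁ y e₁ hyx, ?_⟩
  have h := k₂ y e₂ hyx
  have hset : Pool.Agent.T2H64.SI.Gd (fun _ _ => True) x y =
      {n : ℕ | x < n ∧ n ≤ x + y ∧ ∀ a b : ℕ, f₂ a b ≤ n → HasRep a b (2 * n)} := by
    ext n
    constructor
    · rintro ⟨g1, g2, g3⟩
      exact ⟨g1, g2, fun a b hab => g3 a b trivial hab⟩
    · rintro ⟨g1, g2, g3⟩
      exact ⟨g1, g2, fun a b _ hab => g3 a b hab⟩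
  rw [hset] at h
  exact h

end Pool.Agent.Results.MP_e3f158_nt.ShortIntervals
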